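import Pool.Agent.X19.SS.L
import Pool.Agent.X19.SS.Stm3
import Pool.Agent.X226.A3
import Pool.Agent.X193.SS.G
import Pool.Agent.X306.SS.B
import Pool.Agent.X115.SS.D13
import Pool.Agent.X195.SS.A4D2
import Pool.Agent.X284.SS.F1
import Pool.Agent.X319.SS.F3
import Pool.Agent.X28.SS.MP

/-!
# Sketch-and-solve is optimal among all algorithms that use a random embedding

Full answer to Q1 of MP_467638_an (proved): for every full-rank random embedding `Om` in `K^(n x l)`, `K = ℝ, ℂ`, and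
every algorithm which sees `Om`, `Om* A` and `Om* B`, the worst-case ratio of the expected squared error to the
optimal residual is at least `1 + (n - l)/(n - r) * r/(l - r - α)`.
-/

set_option autoImplicit false

open MeasureTheory
open scoped ENNReal Matrix

namespace Pool.Agent.Results.MP_467638_an.SketchAndSolveOptimal

open Pool.Agent.X19.SS

/-- The worst-case ratio `sup E |B - A ALG(Om, Om* A, Om* B)|_F^2 / |B - A P B|_F^2` over all `A` of rank `r` and all
`B ≠ A P B`, where `P` is the Moore-Penrose inverse of `A`. (`frob2` is the squared Frobenius norm, `IsMP A P` says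
that `P` satisfies the four Penrose equations.) -/
noncomputable def worst {K : Type} [RCLike K] {n l d p : ℕ} {Θ : Type} [MeasurableSpace Θ] (μ : Measure Θ)
    (Om : Θ → Matrix (Fin n) (Fin l) K)
    (ALG : Matrix (Fin n) (Fin l) K → Matrix (Fin l) (Fin d) K → Matrix (Fin l) (Fin p) K →
      Matrix (Fin d) (Fin p) K) (r : ℕ) : ℝ≥0∞ :=
  ⨆ (A : Matrix (Fin n) (Fin d) K) (B : Matrix (Fin n) (Fin p) K) (P : Matrix (Fin d) (Fin n) K)
    (_ : A.rank = r) (_ : IsMP A P) (_ : B ≠ A * P * B),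
    (∫⁻ θ, frob2 (B - A * ALG (Om θ) ((Om θ)ᴴ * A) ((Om θ)ᴴ * B)) ∂μ) / frob2 (B - A * P * B)

/-- The statement of Q1 for the field `K` and the number `α`. -/
def Statement (K : Type) [RCLike K] [MeasurableSpace K] [BorelSpace K] (α : ℕ) : Prop :=
  ∀ (n l d p r : ℕ), 1 ≤ l → l ≤ n → 1 ≤ d → 1 ≤ p → r ≤ d → r + α < l →
  ∀ (Θ : Type) [MeasurableSpace Θ] (μ : Measure Θ) [IsProbabilityMeasure μ] (Om : Θ → Matrix (Fin n) (Fin l) K),
    (Measurable fun θ => fun (i : Fin n) (j : Fin l) => Om θ i j) → (∀ᵐ θ ∂μ, (Om θ).rank = l) →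
  ∀ ALG : Matrix (Fin n) (Fin l) K → Matrix (Fin l) (Fin d) K → Matrix (Fin l) (Fin p) K →
      Matrix (Fin d) (Fin p) K,
    (Measurable fun s : (Fin n → Fin l → K) × (Fin l → Fin d → K) × (Fin l → Fin p → K) =>
      fun (i : Fin d) (k : Fin p) => ALG (Matrix.of s.1) (Matrix.of s.2.1) (Matrix.of s.2.2) i k) →
    ENNReal.ofReal (1 + ((n : ℝ) - l) / ((n : ℝ) - r) * (r / ((l : ℝ) - r - α))) ≤ worst μ Om ALG r

theorem statement_of (K : Type) [RCLike K] [MeasurableSpace K] [BorelSpace K] (α : ℕ)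
    (hα : Module.finrank ℝ K + α = 2) (h1 : 1 ≤ Module.finrank ℝ K) : Statement K α := by
  intro n l d p r _ hln _ hp hr hrl Θ _ μ _ Om hOm _ ALG hALG
  obtain ⟨q, rfl⟩ := Nat.exists_eq_add_of_le hln
  have hA2 := Pool.Agent.X306.SS.t_A2
  have hA1 := Pool.Agent.X306.SS.t_A1
  have hB1 := Pool.Agent.X306.SS.t_B1
  by_cases hC : worst μ Om ALG r = ∞
  · rw [hC]; exact le_top
  refine arith (Module.finrank ℝ K) l q r α hα h1 hrl (worst μ Om ALG r) ?_
  refine main_ineq Pool.Agent.X306.SS.t_B2 Pool.Agent.X306.SS.t_B3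
    (Pool.Agent.X115.SS.t_D1 hA1 Pool.Agent.X226.A3.t_A3 hB1) (Pool.Agent.X195.SS.t_D2 hB1)
    (Pool.Agent.X115.SS.t_D3 hA1 hA2 hB1) (Pool.Agent.X193.SS.t_G hA2) Pool.Agent.X284.SS.t_F1
    Pool.Agent.X319.SS.t_F3a Pool.Agent.X319.SS.t_F3b Pool.Agent.X319.SS.t_F3c Pool.Agent.X319.SS.t_F3d
    Pool.Agent.X319.SS.t_F3e hr hp (by omega) ?_ μ Om hOm ALG hALG _ hC ?_
  · have hcases : Module.finrank ℝ K = 1 ∨ Module.finrank ℝ K = 2 := by omega
    rcases hcases with h | h <;> rw [h] <;> rw [h] at hα <;> omega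
  · intro A B hA hX
    obtain ⟨P, hP⟩ := Pool.Agent.X28.SS.t_MP K (l + q) d A
    have hne : B ≠ A * P * B := fun h => hX (P * B) (by rw [← Matrix.mul_assoc]; exact h.symm)
    have hres := Pool.Agent.X319.SS.t_P K (l + q) d p A B P hP.h1 hP.h3
    rw [hres]
    have h2 : (∫⁻ θ, frob2 (B - A * ALG (Om θ) ((Om θ)ᴴ * A) ((Om θ)ᴴ * B)) ∂μ) / frob2 (B - A * P * B) ≤
        worst μ Om ALG r :=
      le_iSup_of_le A (le_iSup_of_le B (le_iSup_of_le P (le_iSup_of_le hA (le_iSup_of_le hP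
        (le_iSup_of_le hne le_rfl)))))
    have hfin : frob2 (B - A * P * B) ≠ ∞ := by
      unfold frob2
      simp only [ne_eq, ENNReal.sum_eq_top, not_exists, not_and]
      intro i _ j _ h
      exact (ENNReal.pow_ne_top (enorm_ne_top)) h
    exact (ENNReal.div_le_iff_le_mul (Or.inr hC) (Or.inl hfin)).1 h2

/-- **Sketch-and-solve is optimal**: the statement of Q1 holds for `K = ℝ` (`α = 1`) and `K = ℂ` (`α = 0`). -/
theorem result : Statement ℝ 1 ∧ Statement ℂ 0 :=
  ⟨statement_of ℝ 1 (by rw [Module.finrank_self]) (by rw [Module.finrank_self]),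
    statement_of ℂ 0 (by rw [Complex.finrank_real_complex]) (by rw [Complex.finrank_real_complex]; norm_num)⟩

end Pool.Agent.Results.MP_467638_an.SketchAndSolveOptimal
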